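import Mathlib
import Pool.Agent.Lib.MP_16be6a_lc.Poly

set_option autoImplicit false

namespace Pool.Agent.Results.MP_16be6a_lc.TreeInP

open Pool.Agent.Lib.MP_16be6a_lc Pool.Agent.Shared.PolyTime

/-- The tree version of generalized character compatibility with entries {1}, {2}, {0,2} is
decidable in deterministic polynomial time. -/
theorem result : ∃ f : Inst → Bool,
    Nonempty (Turing.TM2ComputableInPolyTime Inst.code (fun b : Bool => [b]) f) ∧
    ∀ I : Inst, f I = true ↔ I.HasSolution :=
  ⟨fun I => decideL I.rows,
    PF.tm2 pf_decideL Inst.code (fun b : Bool => [b]) (fun I => decideL I.rows) Inst.rows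
      (fun _ => rfl) (fun _ => rfl),
    fun I => I.decide_iff⟩

end Pool.Agent.Results.MP_16be6a_lc.TreeInP
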